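import Pool.Agent.L0h11.FP.Stm

/-! project FP, module EXP: first order expansion of the conditions -/

set_option autoImplicit false

namespace Pool.Agent.H50.FP

open Polynomial Finset Pool.Agent.L0h11.FP

/-- Taylor coefficients of `pol D v` in the variable `y` -/
theorem taylor_pol {k : Type} [Field k] {D : ℕ} (c : k[X]) (v : Idx D → k) (j : ℕ) :
    (taylor c (pol D v)).coeff j = ∑ p : Idx D, X ^ (p.1.1 : ℕ) *
      (((p.1.2 : ℕ).choose j : ℕ) : k[X]) * c ^ ((p.1.2 : ℕ) - j) * C (v p) := by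
  unfold pol
  rw [map_sum, finsetSum_coeff]
  refine Finset.sum_congr rfl fun p _ => ?_
  rw [taylor_coeff, C_mul_X_pow_eq_monomial, hasseDeriv_monomial, eval_monomial]
  ring

/-- the functional `f ↦ l`-th Taylor coefficient at `1` -/
noncomputable def L {R : Type} [CommRing R] (l : ℕ) (f : R[X]) : R := (taylor 1 f).coeff l

theorem L_add {R : Type} [CommRing R] (l : ℕ) (f g : R[X]) : L l (f + g) = L l f + L l g := by
  unfold L
  rw [map_add, coeff_add]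

theorem L_C_mul {R : Type} [CommRing R] (l : ℕ) (a : R) (f : R[X]) : L l (C a * f) = a * L l f := by
  unfold L
  rw [taylor_mul, taylor_C, coeff_C_mul]

theorem L_sum {R ι : Type} [CommRing R] (l : ℕ) (s : Finset ι) (f : ι → R[X]) :
    L l (∑ i ∈ s, f i) = ∑ i ∈ s, L l (f i) := by
  unfold L
  rw [map_sum, finsetSum_coeff]

theorem L_map {k : Type} [Field k] (l : ℕ) (f : k[X]) :
    L l (f.map (C : k →+* k[X])) = C (L l f) := by
  unfold L
  have h := map_taylor f (1 : k) (C : k →+* k[X])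
  rw [map_one] at h
  rw [← h, coeff_map]

/-- the expansion of an entry -/
theorem entry {k : Type} [Field k] (i a e M N l : ℕ) :
    ∃ R : k[X], L l ((X : k[X][X]) ^ i * ((a : ℕ) : k[X][X]) * (X ^ e + C X * X ^ M) ^ N) =
      C (L l ((X : k[X]) ^ i * ((a : ℕ) : k[X]) * (X ^ e) ^ N)) +
      X * C (L l ((X : k[X]) ^ i * ((a : ℕ) : k[X]) * ((N : k[X]) * (X ^ e) ^ (N - 1) * X ^ M))) +
      X ^ 2 * R := by
  obtain ⟨K, hK⟩ := Polynomial.powAddExpansion ((X : k[X][X]) ^ e) (C X * X ^ M) N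
  refine ⟨L l (X ^ i * ((a : ℕ) : k[X][X]) * K * (X ^ M) ^ 2), ?_⟩
  have h1 : (X : k[X][X]) ^ i * ((a : ℕ) : k[X][X]) * (X ^ e + C X * X ^ M) ^ N =
      ((X : k[X]) ^ i * ((a : ℕ) : k[X]) * (X ^ e) ^ N).map (C : k →+* k[X]) +
      C X * ((X : k[X]) ^ i * ((a : ℕ) : k[X]) *
        ((N : k[X]) * (X ^ e) ^ (N - 1) * X ^ M)).map (C : k →+* k[X]) +
      C (X ^ 2) * (X ^ i * ((a : ℕ) : k[X][X]) * K * (X ^ M) ^ 2) := by
    rw [hK]
    simp only [Polynomial.map_mul, Polynomial.map_pow, Polynomial.map_X, Polynomial.map_natCast,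
      C_pow]
    ring
  rw [h1, L_add, L_add, L_C_mul, L_C_mul, L_map, L_map]

theorem EXP : St_EXP := by
  intro k _ D r m e M w hw
  -- the entries
  have hent : ∀ (q : Cnd r m) (p : Idx D), ∃ R : k[X],
      mat D r m (1 : k[X]) (X ^ e + C X * X ^ M) q p =
        C (mat D r m (1 : k) (X ^ e) q p) +
        X * C (L (q.2 : ℕ) ((X : k[X]) ^ (p.1.1 : ℕ) * (((p.1.2 : ℕ).choose (q.1 : ℕ) : ℕ) : k[X]) *
          ((((p.1.2 : ℕ) - q.1 : ℕ) : k[X]) * (X ^ e) ^ ((p.1.2 : ℕ) - q.1 - 1) * X ^ M))) +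
        X ^ 2 * R := fun q p => entry _ _ e M _ _
  choose Rm hRm using hent
  have h0 : ∀ (q : Cnd r m), ∑ p : Idx D, mat D r m (1 : k[X]) (X ^ e + C X * X ^ M) q p * w p = 0 :=
    fun q => congrFun hw q
  have c0 : ∀ q p, (mat D r m (1 : k[X]) (X ^ e + C X * X ^ M) q p).coeff 0 =
      mat D r m (1 : k) (X ^ e) q p := by
    intro q p
    rw [hRm q p]
    simp [coeff_add, mul_coeff_zero, pow_two]
  have c1 : ∀ q p, (mat D r m (1 : k[X]) (X ^ e + C X * X ^ M) q p).coeff 1 =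
      L (q.2 : ℕ) ((X : k[X]) ^ (p.1.1 : ℕ) * (((p.1.2 : ℕ).choose (q.1 : ℕ) : ℕ) : k[X]) *
          ((((p.1.2 : ℕ) - q.1 : ℕ) : k[X]) * (X ^ e) ^ ((p.1.2 : ℕ) - q.1 - 1) * X ^ M)) := by
    intro q p
    rw [hRm q p]
    simp [coeff_add, mul_coeff_one, pow_two, coeff_C]
  refine ⟨?_, ?_⟩
  · funext q
    have h1 := congrArg (fun f : k[X] => f.coeff 0) (h0 q)
    simp only [finsetSum_coeff, mul_coeff_zero, coeff_zero, c0] at h1
    exact h1
  · intro q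
    have h1 := congrArg (fun f : k[X] => f.coeff 1) (h0 q)
    simp only [finsetSum_coeff, mul_coeff_one, coeff_zero, c0, c1, Finset.sum_add_distrib] at h1
    have h2 : (mat D r m (1 : k) (X ^ e)).mulVec (fun p => (w p).coeff 1) q =
        ∑ p : Idx D, mat D r m (1 : k) (X ^ e) q p * (w p).coeff 1 := rfl
    rw [h2, ← h1]
    congr 1
    show L (q.2 : ℕ) _ = _
    rw [taylor_pol, Finset.mul_sum, L_sum]
    refine Finset.sum_congr rfl fun p _ => ?_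
    have h3 : (((q.1 : ℕ) + 1 : ℕ) : k[X]) * X ^ M * (X ^ (p.1.1 : ℕ) *
        (((p.1.2 : ℕ).choose ((q.1 : ℕ) + 1) : ℕ) : k[X]) *
          (X ^ e) ^ ((p.1.2 : ℕ) - ((q.1 : ℕ) + 1)) * C ((w p).coeff 0)) =
        C ((w p).coeff 0) * ((X : k[X]) ^ (p.1.1 : ℕ) *
          (((p.1.2 : ℕ).choose (q.1 : ℕ) : ℕ) : k[X]) *
          ((((p.1.2 : ℕ) - q.1 : ℕ) : k[X]) * (X ^ e) ^ ((p.1.2 : ℕ) - q.1 - 1) * X ^ M)) := by
      have h4 : (((p.1.2 : ℕ).choose ((q.1 : ℕ) + 1) : ℕ) : k[X]) * (((q.1 : ℕ) + 1 : ℕ) : k[X]) =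
          (((p.1.2 : ℕ).choose (q.1 : ℕ) : ℕ) : k[X]) * (((p.1.2 : ℕ) - q.1 : ℕ) : k[X]) := by
        exact_mod_cast congrArg (fun n : ℕ => (n : k[X]))
          (Nat.choose_succ_right_eq (p.1.2 : ℕ) (q.1 : ℕ))
      have h5 : (p.1.2 : ℕ) - ((q.1 : ℕ) + 1) = (p.1.2 : ℕ) - q.1 - 1 := by omega
      rw [h5]
      linear_combination (X ^ M * X ^ (p.1.1 : ℕ) * (X ^ e) ^ ((p.1.2 : ℕ) - q.1 - 1) *
        C ((w p).coeff 0)) * h4
    rw [h3, L_C_mul, mul_comm]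

end Pool.Agent.H50.FP
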